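import Pool.Agent.V7H94.Small.Main

set_option autoImplicit false

/-!
# MP_b1773a: small Kakeya sets in every dimension

For every `n ≥ 2` there is a Kakeya set in `ℝ^n` whose `δ`-neighbourhood has measure at most
`C (log (1/δ))^{-(n-1)}` for all `0 < δ < 1`.  (The product of a planar Kakeya set with a cube
gives only `C / log (1/δ)`.)  The set is explicit: it is the union over `j` of the sets of the
points `x` with `0 ≤ x j ≤ 1` and `x i ∈ A (x j)` for all `i ≠ j`, where `A t` is the slice at
height `t` of one planar Kakeya-type set all whose slices have `δ`-neighbourhoods of length at most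
`C / log (1/δ)`.
-/

open MeasureTheory Set Metric

namespace Pool.Agent.Results.MP_b1773a_an.SmallKakeyaSetsH94

/-- A Kakeya set: a compact set that contains a unit segment in every direction. -/
def IsKakeyaSet {n : ℕ} (K : Set (EuclideanSpace ℝ (Fin n))) : Prop :=
  IsCompact K ∧ ∀ e : EuclideanSpace ℝ (Fin n), ‖e‖ = 1 →
    ∃ a : EuclideanSpace ℝ (Fin n), ∀ t ∈ Icc (0 : ℝ) 1, a + t • e ∈ K

/-- **Small Kakeya sets.** In every dimension `n ≥ 2` there is a Kakeya set whose
`δ`-neighbourhood has volume at most `C / (log (1/δ))^(n-1)`, for all `0 < δ < 1`. -/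
theorem result (n : ℕ) (hn : 2 ≤ n) :
    ∃ K : Set (EuclideanSpace ℝ (Fin n)), IsKakeyaSet K ∧
      ∃ C : ℝ, 0 < C ∧ ∀ δ : ℝ, 0 < δ → δ < 1 →
        volume (thickening δ K) ≤ ENNReal.ofReal (C / Real.log (1 / δ) ^ (n - 1)) := by
  obtain ⟨h1, h2, h3⟩ := Pool.Agent.V7H94.Small.main n (by omega)
  exact ⟨_, ⟨h1, h2⟩, h3⟩

end Pool.Agent.Results.MP_b1773a_an.SmallKakeyaSetsH94
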