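import Pool.Agent.V7H68.UF.Geo

/-!
# MP_b1773a: neighbourhoods of sticky families of lines of small complexity

Let `n = m + 1 ≥ 2`.  For a function `a` on the unit cube `[0,1)^m` with values in `ℝ^m` consider the
lines `ℓ_v = {(t, a v + t v) : t real}` with directions `(1, v)`.  The zoom of `g` into the `b`-adic
cube with corner `z / b^k` and side `b^(-k)` is the function `y ↦ b^k (g ((z+y)/b^k) - g (z/b^k))` on
the unit cube.  If the zooms are bounded then the family of lines is sticky: lines whose directions
are in one `b`-adic cube of side `b^(-k)` are at distance at most a constant times `b^(-k)`.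

We measure the complexity of a sticky family by the number of its zooms: `Few b R p g` says that all
zooms of `g` are bounded by `R` and that every zoom of `g` has at most `p j` different zooms `j` levels
further down.  Always `p j = b^(m j)` is possible.  Nothing else is assumed, so that the class contains
families without any recurrence: for instance `g v = ∑ b^(-k) φ_k(d_k)`, where the `d_k` are the `b`-adic
digits of `v` and the `φ_k` are arbitrary bounded functions (`p j = 1`), and all families in which the
rule for the next digit depends on a slowly growing memory.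

Theorem.  Let `p j ≤ b^((h + o(1)) j)` and let `F` be differentiable almost everywhere.  For all
`ε, λ > 0` there is `c > 0` such that for ALL `g` with `Few b R p g` and all measurable sets
`Y ⊆ [0,1)^m × [0,1]` of measure at least `λ`, the `δ`-neighbourhood of the set of the points
`(t, a v + t v)`, `(v, t)` in `Y`, where `a = g + F`, has volume at least `c δ^(h + ε)` for all
`0 < δ < 1`.

So if `h = 0`, then all sets which contain a segment, or only a subset of positive length, of
`ℓ_v` for all `v` in a set of positive measure, have lower Minkowski dimension `n`, with a bound for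
the volumes which is uniform over the whole class; and in general the dimension is at least `n - h`.
In particular a sticky family which violates the Kakeya conjecture has exponentially many zooms.

Proof.  Consider the smallest entropy of `g + t` at the scale `b^(-n)`, averaged over finitely many
weighted heights, projections and all `g` in the class: it is superadditive up to a constant, so that
there is a rate.  Heights for which the images of the cubes are super-exponentially close in some
projection are rare (a determinant which is a polynomial in `t` with integral leading coefficient).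
For the other heights an inverse theorem for the growth of entropy shows that near minimisers would
gain entropy unless the rate is at least `(m - h) log b`.  This controls the entropy of all cells on
which `F` is nearly linear; a martingale argument for the labels of the cells gives the volume of
the neighbourhoods of the images of subsets.
-/

set_option autoImplicit false

namespace Pool.Agent.Results.MP_b1773a_an.StickyEntropyH68

open MeasureTheory
open scoped ENNReal

/-- The half open unit cube. -/
def cube (m : ℕ) : Set (Fin m → ℝ) := {v | ∀ i, 0 ≤ v i ∧ v i < 1}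

/-- The zoom of `g` into the `b`-adic cube of side `b^(-k)` and corner `z / b^k` (and zero outside
the unit cube). -/
noncomputable def zoom {m : ℕ} (b : ℕ) (g : (Fin m → ℝ) → Fin m → ℝ) (k : ℕ) (z : Fin m → ℕ) :
    (Fin m → ℝ) → Fin m → ℝ :=
  (cube m).indicator fun y => (b:ℝ) ^ k •
    (g (((b:ℝ) ^ k)⁻¹ • ((fun i => (z i : ℝ)) + y)) - g (((b:ℝ) ^ k)⁻¹ • fun i => (z i : ℝ)))

/-- All zooms are bounded by `R`, and the zoom of level `k` at `z` has at most `p j` different
zooms `j` levels further down. -/
def Few {m : ℕ} (b : ℕ) (R : ℝ) (p : ℕ → ℕ) (g : (Fin m → ℝ) → Fin m → ℝ) : Prop :=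
  ∀ (k : ℕ) (z : Fin m → ℕ), (∀ i, z i < b ^ k) →
    (∀ y ∈ cube m, ‖zoom b g k z y‖ ≤ R) ∧
    ∀ j : ℕ, {f | ∃ y : Fin m → ℕ, (∀ i, y i < b ^ j) ∧
      f = zoom b g (k + j) (fun i => b ^ j * z i + y i)}.ncard ≤ p j

/-- The point `(t, a + t v)` of Euclidean space. -/
noncomputable def pt {m : ℕ} (a v : Fin m → ℝ) (t : ℝ) : EuclideanSpace ℝ (Fin (m + 1)) :=
  WithLp.toLp 2 (Fin.cons t (a + t • v))

theorem result (m : ℕ) (hm : 1 ≤ m) (b : ℕ) (hb : 2 ≤ b) (R h : ℝ) (hh : 0 ≤ h) (p : ℕ → ℕ)
    (hp : ∀ ε : ℝ, 0 < ε → ∀ᶠ j : ℕ in Filter.atTop, (p j : ℝ) ≤ (b:ℝ) ^ ((h + ε) * j))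
    (F : (Fin m → ℝ) → Fin m → ℝ)
    (hF : ∀ᵐ v ∂(volume.restrict (cube m)), DifferentiableAt ℝ F v)
    (ε lam : ℝ) (hε : 0 < ε) (hlam : 0 < lam) :
    ∃ c : ℝ, 0 < c ∧ ∀ g : (Fin m → ℝ) → Fin m → ℝ, Few b R p g →
      ∀ Y : Set ((Fin m → ℝ) × ℝ), MeasurableSet Y → Y ⊆ cube m ×ˢ Set.Icc (0:ℝ) 1 →
      ENNReal.ofReal lam ≤ volume Y → ∀ δ : ℝ, 0 < δ → δ < 1 →
      ENNReal.ofReal (c * δ ^ (h + ε)) ≤
        volume (Metric.thickening δ {x | ∃ v t, (v, t) ∈ Y ∧ x = pt (g v + F v) v t}) := by
  have hcube : cube m = Pool.Agent.V7H68.SS.cube (Fin m) := rfl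
  have hzoom : ∀ (g : (Fin m → ℝ) → Fin m → ℝ) (k : ℕ) (z : Fin m → ℕ), zoom b g k z =
      Pool.Agent.V7H68.MS.zm (b ^ k) z g := by
    intro g k z
    unfold zoom Pool.Agent.V7H68.MS.zm Pool.Agent.V7H68.MS.nv
    push_cast
    rfl
  obtain ⟨c, hc, hmain⟩ := Pool.Agent.V7H68.UF.final m hm hb (R := max R 0) (h := h)
    (le_max_right _ _) hh hp hF hε hlam
  refine ⟨c, hc, fun g hg Y hYm hYc hYv δ hδ0 hδ1 => ?_⟩
  refine hmain g ?_ Y hYm hYc hYv δ hδ0 hδ1
  refine Pool.Agent.V7H68.UF.Cl.of_zooms hb (fun k z hz y hy => ?_) fun k z hz j => ?_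
  · rw [← hzoom]
    exact ((hg k z hz).1 y hy).trans (le_max_left _ _)
  · simp only [← hzoom]
    exact (hg k z hz).2 j

end Pool.Agent.Results.MP_b1773a_an.StickyEntropyH68
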