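import Pool.Agent.V7H39.KS.Sym
import Pool.Agent.Results.MP_b1773a_an.HybridKakeya

/-!
# Dimension reduction for symmetric and for star-shaped Kakeya sets
-/

set_option autoImplicit false

open Set Metric Module Filter MeasureTheory
open scoped ENNReal NNReal

namespace Pool.Agent.Results.MP_b1773a_an.SymmetricStarShapedH39

open Pool.Agent.V7H39.KS

/-- `K` is invariant under the orthogonal group of `Wᗮ` acting around the affine subspace `o + W`:
with `x` it contains every `y` with the same component along `W` and the same distance from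
`o`. -/
def SymmetricAbout {n : ℕ} (W : Submodule ℝ (EuclideanSpace ℝ (Fin n)))
    (o : EuclideanSpace ℝ (Fin n)) (K : Set (EuclideanSpace ℝ (Fin n))) : Prop :=
  ∀ x ∈ K, ∀ y, x - y ∈ Wᗮ → ‖x - o‖ = ‖y - o‖ → y ∈ K

/-- `K` is star-shaped with respect to `q` affinely independent points `c i`, and either `m + q` is
the dimension `n` of the space, or `K` is invariant under the rotations around an affine subspace
`o + W` of dimension `m + q - 2` that contains the points `c i`. -/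
def Reduces {n : ℕ} (m : ℕ) (K : Set (EuclideanSpace ℝ (Fin n))) : Prop :=
  ∃ (q : ℕ) (c : Fin q → EuclideanSpace ℝ (Fin n)), AffineIndependent ℝ c ∧
    (∀ i, StarConvex ℝ (c i) K) ∧
    (m + q = n ∨ ∃ (W : Submodule ℝ (EuclideanSpace ℝ (Fin n))) (o : EuclideanSpace ℝ (Fin n)),
      finrank ℝ W + 2 = m + q ∧ m + q ≤ n ∧ SymmetricAbout W o K ∧ ∀ i, c i - o ∈ W)

theorem toSphere_univ_ne {n : ℕ} (hn : 2 ≤ n) :
    (volume : Measure (EuclideanSpace ℝ (Fin n))).toSphere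
      {e : Metric.sphere (0 : EuclideanSpace ℝ (Fin n)) 1 |
        (e : EuclideanSpace ℝ (Fin n)) ∈ (univ : Set (EuclideanSpace ℝ (Fin n)))} ≠ 0 := by
  have : Nonempty (Fin n) := ⟨⟨0, by omega⟩⟩
  have h1 : {e : Metric.sphere (0 : EuclideanSpace ℝ (Fin n)) 1 |
        (e : EuclideanSpace ℝ (Fin n)) ∈ (univ : Set (EuclideanSpace ℝ (Fin n)))} = univ := by
    ext e
    simp
  rw [h1, Measure.toSphere_apply_univ]
  refine mul_ne_zero ?_ ?_
  · simp; omega
  · exact (measure_ball_pos _ _ one_pos).ne'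

theorem kakeyaDim_ge (n : ℕ) (hn : 2 ≤ n) (c : ℝ) (hc1 : 1 ≤ c)
    (hc : 0 ≤ ((n : ℝ) - 1) * (c ^ 3 - 4 * c + 2) + c * (3 * c - 1 - c ^ 2)) :
    ENNReal.ofReal (1 + ((n : ℝ) - 1) / c) ≤ kakeyaDim n := by
  refine le_iInf₂ fun K hK => HybridKakeya.result n hn c hc1 hc univ K (toSphere_univ_ne hn) ?_
  intro e _ he
  obtain ⟨a, ha⟩ := hK.2 e he
  refine ⟨a, lt_of_lt_of_le ?_ (measure_mono (s := Icc (0 : ℝ) 1) fun t ht => ha t ht)⟩
  simp

theorem kakeyaDim_two : (2 : ℝ≥0∞) ≤ kakeyaDim 2 := by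
  have h := kakeyaDim_ge 2 le_rfl 1 le_rfl (by norm_num)
  refine le_trans (le_of_eq ?_) h
  norm_num

theorem kakeyaDim_three : ENNReal.ofReal (17 / 7) ≤ kakeyaDim 3 := by
  have h := kakeyaDim_ge 3 (by norm_num) (7 / 5) (by norm_num) (by norm_num)
  refine le_trans (le_of_eq ?_) h
  norm_num

theorem segment_baire {n : ℕ} {K : ℕ → Set (EuclideanSpace ℝ (Fin n))} (hK : ∀ j, IsCompact (K j))
    {e a : EuclideanSpace ℝ (Fin n)} {l : ℝ} (hl : 0 < l)
    (h : ∀ t ∈ Icc (0 : ℝ) l, a + t • e ∈ ⋃ j, K j) :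
    ∃ (p : ℕ × ℕ) (a' : EuclideanSpace ℝ (Fin n)),
      ∀ t ∈ Icc (0 : ℝ) (1 / ((p.2 : ℝ) + 1)), a' + t • e ∈ K p.1 := by
  set f : Option ℕ → Set ℝ := fun o => match o with
    | none => (Ioo (0 : ℝ) l)ᶜ
    | some j => {t : ℝ | a + t • e ∈ K j} with hf
  have hfc : ∀ o, IsClosed (f o) := by
    intro o
    cases o with
    | none => exact isOpen_Ioo.isClosed_compl
    | some j => exact (hK j).isClosed.preimage (by fun_prop)
  have hfu : ⋃ o, f o = univ := by
    rw [eq_univ_iff_forall]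
    intro t
    rw [mem_iUnion]
    by_cases ht : t ∈ Ioo (0 : ℝ) l
    · obtain ⟨j, hj⟩ := mem_iUnion.1 (h t ⟨ht.1.le, ht.2.le⟩)
      exact ⟨some j, hj⟩
    · exact ⟨none, ht⟩
  have hd := dense_iUnion_interior_of_closed hfc hfu
  obtain ⟨t0, ht0, ht1⟩ := hd.exists_mem_open isOpen_Ioo (nonempty_Ioo.2 hl)
  rw [mem_iUnion] at ht0
  obtain ⟨o, ho⟩ := ht0
  cases o with
  | none => exact absurd ht1 (interior_subset ho)
  | some j =>
    obtain ⟨r, hr, hb⟩ := Metric.isOpen_iff.1 isOpen_interior t0 ho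
    obtain ⟨k, hk⟩ := exists_nat_one_div_lt hr
    refine ⟨(j, k), a + t0 • e, fun t ht => ?_⟩
    have h1 : t0 + t ∈ ball t0 r := by
      rw [mem_ball, Real.dist_eq]
      have : |t0 + t - t0| = t := by rw [add_sub_cancel_left, abs_of_nonneg ht.1]
      rw [this]
      exact lt_of_le_of_lt ht.2 hk
    have h2 : t0 + t ∈ f (some j) := interior_subset (hb h1)
    have h3 : a + (t0 + t) • e ∈ K j := h2
    rwa [add_smul, ← add_assoc] at h3

theorem reduces_le {n m : ℕ} {K : Set (EuclideanSpace ℝ (Fin n))} (hK : IsCompact K)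
    (hred : Reduces m K) {e0 : EuclideanSpace ℝ (Fin n)} (he0 : ‖e0‖ = 1) {r l : ℝ} (hr : 0 < r)
    (hl : 0 < l) (hseg : SegNear K l e0 r) :
    m ≤ n ∧ kakeyaDim m + ((n - m : ℕ) : ℝ≥0∞) ≤ dimH K := by
  obtain ⟨q, c, hc, hstar, hq⟩ := hred
  have hst : ∀ i, ∀ x ∈ K, ∀ t ∈ Ioc (0 : ℝ) 1, c i + t • (x - c i) ∈ K := by
    intro i x hx t ht
    have h1 := hstar i hx (sub_nonneg.2 ht.2) ht.1.le (by ring)
    convert h1 using 1
    module
  rcases hq with hq | ⟨W, o, hW, hqn, hsym, hcW⟩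
  · refine ⟨by omega, ?_⟩
    have h1 := star_main m q (EuclideanSpace ℝ (Fin n)) (by rw [finrank_euclideanSpace_fin]; omega)
      c hc K K hK Subset.rfl hst e0 he0 r l hr hl hseg
    have h2 : n - m = q := by omega
    rw [h2]
    exact h1
  · refine ⟨by omega, ?_⟩
    set Φ := IsometryEquiv.addRight o with hΦ
    have hΦa : ∀ x, Φ x = x + o := fun x => rfl
    have hK' : IsCompact (Φ ⁻¹' K) := Φ.toHomeomorph.isCompact_preimage.2 hK
    have h1 := sym_main (m := m) (q := q) (N := m + q) rfl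
      (by rw [finrank_euclideanSpace_fin]; exact hqn) W hW (Φ ⁻¹' K) hK' ?_ (fun i => c i - o) hcW
      ?_ ?_ he0 hr hl ?_
    · rw [IsometryEquiv.dimH_preimage, finrank_euclideanSpace_fin, add_assoc, ← Nat.cast_add] at h1
      have h2 : q + (n - (m + q)) = n - m := by omega
      rwa [h2] at h1
    · intro x hx y hxy hn
      rw [mem_preimage, hΦa] at hx ⊢
      refine hsym _ hx _ ?_ ?_
      · rwa [add_sub_add_right_eq_sub]
      · rwa [add_sub_cancel_right, add_sub_cancel_right]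
    · have h2 := (AffineEquiv.vaddConst ℝ o).symm.affineIndependent_iff (p := c)
      exact h2.2 hc
    · intro i x hx t ht
      rw [mem_preimage, hΦa] at hx ⊢
      have h2 := hst i _ hx t ht
      convert h2 using 1
      module
    · intro e he1 he2
      obtain ⟨a, ha⟩ := hseg e he1 he2
      refine ⟨a - o, fun t ht => ?_⟩
      rw [mem_preimage, hΦa]
      have h2 := ha t ht
      convert h2 using 1
      module

theorem result (n m : ℕ) (K : ℕ → Set (EuclideanSpace ℝ (Fin n))) (hK : ∀ j, IsCompact (K j))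
    (hred : ∀ j, Reduces m (K j)) (e0 : EuclideanSpace ℝ (Fin n)) (he0 : ‖e0‖ = 1) (r : ℝ)
    (hr : 0 < r)
    (hseg : ∀ e : EuclideanSpace ℝ (Fin n), ‖e‖ = 1 → ‖e - e0‖ < r →
      ∃ (a : EuclideanSpace ℝ (Fin n)) (l : ℝ), 0 < l ∧ ∀ t ∈ Icc (0 : ℝ) l, a + t • e ∈ ⋃ j, K j) :
    kakeyaDim m + ((n - m : ℕ) : ℝ≥0∞) ≤ dimH (⋃ j, K j) ∧
      (m = 2 → dimH (⋃ j, K j) = n) ∧
      (m = 3 → ENNReal.ofReal ((n : ℝ) - 4 / 7) ≤ dimH (⋃ j, K j)) := by
  have hcov : ∀ e : EuclideanSpace ℝ (Fin n), ‖e‖ = 1 → ‖e - e0‖ < r →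
      ∃ (p : ℕ × ℕ) (a : EuclideanSpace ℝ (Fin n)),
        (∀ t ∈ Icc (0 : ℝ) (1 / ((p.2 : ℝ) + 1)), a + t • e ∈ K p.1) ∧ True := by
    intro e he1 he2
    obtain ⟨a, l, hl, h⟩ := hseg e he1 he2
    obtain ⟨p, a', h'⟩ := segment_baire hK hl h
    exact ⟨p, a', h', trivial⟩
  obtain ⟨p, e2, r2, he2, -, hr2, hs⟩ := baire_dirs (fun p : ℕ × ℕ => K p.1) (fun p => hK p.1)
    (fun p => 1 / ((p.2 : ℝ) + 1)) (fun p => by positivity) (fun _ _ => True)
    (fun _ => by simp) he0 hr hcov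
  have hs' : SegNear (K p.1) (1 / ((p.2 : ℝ) + 1)) e2 r2 := by
    intro e h1 h2
    obtain ⟨a, ha, -⟩ := hs e h1 h2
    exact ⟨a, ha⟩
  obtain ⟨hmn, h1⟩ := reduces_le (hK p.1) (hred p.1) he2 hr2 (by positivity) hs'
  have h2 : kakeyaDim m + ((n - m : ℕ) : ℝ≥0∞) ≤ dimH (⋃ j, K j) :=
    h1.trans (dimH_mono (subset_iUnion K p.1))
  refine ⟨h2, ?_, ?_⟩
  · rintro rfl
    refine le_antisymm ?_ ?_
    · refine (dimH_mono (subset_univ _)).trans ?_
      rw [Real.dimH_univ_eq_finrank]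
      simp
    · refine le_trans (le_of_eq ?_) ((add_le_add_left kakeyaDim_two _).trans h2)
      have : ((2 : ℕ) : ℝ≥0∞) + ((n - 2 : ℕ) : ℝ≥0∞) = (n : ℝ≥0∞) := by
        rw [← Nat.cast_add]
        congr 1
        omega
      rw [← this]
      norm_num
  · rintro rfl
    refine le_trans (le_of_eq ?_) ((add_le_add_left kakeyaDim_three _).trans h2)
    rw [← ENNReal.ofReal_natCast, ← ENNReal.ofReal_add (by norm_num) (by positivity),
      Nat.cast_sub hmn]
    congr 1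
    push_cast
    ring

end Pool.Agent.Results.MP_b1773a_an.SymmetricStarShapedH39
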