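import Pool.Agent.V7H68.HF.All

/-!
# MP_b1773a: Kakeya for sticky line families with frequencies

Let `n = m + 1 ≥ 2`.  For a function `a` on the unit cube `[0,1)^m` with values in `ℝ^m` consider the
lines `ℓ_v = {(t, a v + t v) : t real}` with directions `(1, v)`.  The zoom of `g` into the `b`-adic
cube with corner `z / b^k` and side `b^(-k)` is the function `y ↦ b^k (g ((z+y)/b^k) - g (z/b^k))` on
the unit cube.  If the zooms are bounded then the family of lines is sticky: lines whose directions
are in one `b`-adic cube of side `b^(-k)` are at distance at most a constant times `b^(-k)`.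

`Low b h g` says that the zooms of `g` are bounded and that, for some `d`, with
`c = n^3 + (d + 1) n + 2`, for every `ε > 0` there are infinitely many `j` with the two properties

* `Regular b d c j g`: the `b`-adic cubes of all sizes can be coloured with finitely many colours such
  that the zooms into two cubes of the same colour differ by at most `2 b^(-c j)` and such that for
  almost every `v` the sum over the colours of the upper densities (of the set of the `k` for which the
  cube of side `b^(-k)` around `v` has this colour) is at most `b^(d j)`;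
* `Thin b c j (h + ε) g`: the zooms `j` levels below any one zoom are covered by `b^((h + ε) j)` balls of
  radius `b^(-c j)` (uniform distance).

If along almost every branch of cubes every colour has a frequency, then the sum of the upper
densities is one.  So the first property holds for all functions whose zooms are a relatively compact
set and are distributed, along almost every branch, like a probability measure.  Examples with
`h = 0`: `g v = ∑ b^(-k) φ_k(d_k)`, where the `d_k` are the `b`-adic digits of `v` and `(φ_k)` is almost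
every path of a stationary process of bounded functions on the digits, or `φ_k = φ(θ + k α)` for a
continuous `φ` on a torus; the sum over the colours is also at most `b^(d j)` if all zooms are covered
by `b^(d j)` balls of radius `b^(-c j)`, in particular if the set of zooms has lower box dimension zero
(self similar and graph directed families) or less than `1 / (n^3 + 2 n + 2)`, or if each `φ_k` is one of
less than `b^(1/n)` functions, in any order.

Theorem.  Let `0 ≤ h < m`, let almost every point be in a `b`-adic cube of some side such that the zoom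
of `g` into it satisfies `Low b h`, let `F` be differentiable almost everywhere, and `a = g + F`.
If the Hausdorff dimension of `K ⊆ ℝ^n` is less than `n - h`, then almost every line `ℓ_v` meets `K` in
a set of length zero.  So every set which contains a segment, or only a subset of positive length, of
`ℓ_v` for all `v` in a set that is not a null set has Hausdorff dimension at least `n - h`.

Proof.  The parameters `t` (heights) for which the digits of a given zoom at the level `j` are not
transversal form a set of measure `b^(-(d+1) j)`; so for almost all pairs `(v, t)` bad levels `j` are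
rare along the branch of `v`, with weight `j`.  For a fixed height we minimise, over all zooms and all
projections, the entropy plus a penalty for the bad levels; this functional is superadditive, and
an inverse theorem for the growth of entropy shows that its rate is at least `(m - h) log b`: a near
minimiser is not bad at its own level, and its zooms are replaced by few of them, those with small
penalty.  A law of large numbers turns the penalties, which are averages over all descendants of a
cube, into averages along branches, where they are small.  A weighted Frostman argument gives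
`dim {a v + t v : v ∈ Y} ≥ m - h` for every set `Y` of positive outer measure; almost all slices of a set
of dimension `< n - h` are smaller.
-/

set_option autoImplicit false

namespace Pool.Agent.Results.MP_b1773a_an.ZoomFrequenciesH68

open MeasureTheory
open scoped ENNReal

/-- The half open unit cube. -/
def cube (m : ℕ) : Set (Fin m → ℝ) := {v | ∀ i, 0 ≤ v i ∧ v i < 1}

/-- The zoom of `g` into the `b`-adic cube of side `b^(-k)` and corner `z / b^k` (and zero outside
the unit cube). -/
noncomputable def zoom {m : ℕ} (b : ℕ) (g : (Fin m → ℝ) → Fin m → ℝ) (k : ℕ) (z : Fin m → ℕ) :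
    (Fin m → ℝ) → Fin m → ℝ :=
  (cube m).indicator fun y => (b:ℝ) ^ k •
    (g (((b:ℝ) ^ k)⁻¹ • ((fun i => (z i : ℝ)) + y)) - g (((b:ℝ) ^ k)⁻¹ • fun i => (z i : ℝ)))

/-- The upper density of a set of natural numbers. -/
noncomputable def upperDensity (A : Set ℕ) : ℝ :=
  Filter.limsup (fun N : ℕ => (({k | k < N ∧ k ∈ A} : Set ℕ).ncard : ℝ) / N) Filter.atTop

/-- The cubes have a colouring with finitely many colours such that cubes of the same colour have
nearly the same zooms and the sum over the colours of the upper densities along almost every branch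
is at most `b^(d j)`. -/
def Regular {m : ℕ} (b d c j : ℕ) (g : (Fin m → ℝ) → Fin m → ℝ) : Prop :=
  ∃ (p : ℕ) (col : ℕ → (Fin m → ℕ) → Fin p),
    (∀ (k k' : ℕ) (z z' : Fin m → ℕ), (∀ i, z i < b ^ k) → (∀ i, z' i < b ^ k') →
      col k z = col k' z' → ∀ y ∈ cube m, ‖zoom b g k z y - zoom b g k' z' y‖ ≤
        2 * ((b:ℝ) ^ (c * j))⁻¹) ∧
    ∀ᵐ v ∂(volume.restrict (cube m)),
      ∑ a : Fin p, upperDensity {k | col k (fun i => ⌊(b:ℝ) ^ k * v i⌋₊) = a} ≤ (b:ℝ) ^ (d * j)

/-- The zooms `j` levels below any zoom are covered by `b^(a j)` balls of radius `b^(-c j)`. -/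
def Thin {m : ℕ} (b c j : ℕ) (a : ℝ) (g : (Fin m → ℝ) → Fin m → ℝ) : Prop :=
  ∀ (k : ℕ) (z : Fin m → ℕ), (∀ i, z i < b ^ k) →
    ∃ s : Finset ((Fin m → ℝ) → Fin m → ℝ), (s.card : ℝ) ≤ (b:ℝ) ^ (a * j) ∧
      ∀ y : Fin m → ℕ, (∀ i, y i < b ^ j) → ∃ φ ∈ s, ∀ u ∈ cube m,
        ‖zoom b g (k + j) (fun i => b ^ j * z i + y i) u - φ u‖ ≤ ((b:ℝ) ^ (c * j))⁻¹

/-- Sticky, with frequencies, of complexity at most `h`. -/
def Low {m : ℕ} (b : ℕ) (h : ℝ) (g : (Fin m → ℝ) → Fin m → ℝ) : Prop :=
  (∃ R : ℝ, ∀ (k : ℕ) (z : Fin m → ℕ), (∀ i, z i < b ^ k) → ∀ y ∈ cube m, ‖zoom b g k z y‖ ≤ R) ∧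
  ∃ d c : ℕ, c = (m + 1) ^ 3 + (d + 1) * (m + 1) + 2 ∧ ∀ ε : ℝ, 0 < ε →
    ∃ᶠ j : ℕ in Filter.atTop, Regular b d c j g ∧ Thin b c j (h + ε) g

/-- The point `(t, a + t v)` of Euclidean space. -/
noncomputable def pt {m : ℕ} (a v : Fin m → ℝ) (t : ℝ) : EuclideanSpace ℝ (Fin (m + 1)) :=
  WithLp.toLp 2 (Fin.cons t (a + t • v))

theorem dens_eq (A : Set ℕ) [DecidablePred (· ∈ A)] : upperDensity A =
    Filter.limsup (fun N : ℕ => (N:ℝ)⁻¹ * ((((Finset.range N).filter fun k => k ∈ A).card : ℕ) : ℝ))
      Filter.atTop := by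
  unfold upperDensity
  congr 1
  funext N
  have h1 : ({k | k < N ∧ k ∈ A} : Set ℕ) = ((Finset.range N).filter fun k => k ∈ A : Finset ℕ) := by
    ext k
    simp
  rw [h1, Set.ncard_coe_finset, div_eq_inv_mul]

theorem result (m : ℕ) (hm : 1 ≤ m) (b : ℕ) (hb : 2 ≤ b) (h : ℝ) (h0 : 0 ≤ h) (hhm : h < m)
    (g F : (Fin m → ℝ) → Fin m → ℝ)
    (hg : ∀ᵐ v ∂(volume.restrict (cube m)), ∃ (k : ℕ) (z : Fin m → ℕ), (∀ i, z i < b ^ k) ∧
      (∀ i, (z i : ℝ) ≤ (b:ℝ) ^ k * v i ∧ (b:ℝ) ^ k * v i < z i + 1) ∧ Low b h (zoom b g k z))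
    (hF : ∀ᵐ v ∂(volume.restrict (cube m)), DifferentiableAt ℝ F v)
    (K : Set (EuclideanSpace ℝ (Fin (m + 1)))) (hK : dimH K < ENNReal.ofReal (m + 1 - h)) :
    ∀ᵐ v ∂(volume.restrict (cube m)), volume {t : ℝ | pt (g v + F v) v t ∈ K} = 0 := by
  classical
  have hne : Nonempty (Fin m) := ⟨⟨0, hm⟩⟩
  have hbp : 0 < b := by omega
  have hcube : cube m = Pool.Agent.V7H68.SS.cube (Fin m) := rfl
  have hzoom : ∀ (g : (Fin m → ℝ) → Fin m → ℝ) (k : ℕ) (z : Fin m → ℕ), zoom b g k z =
      Pool.Agent.V7H68.MS.zm (b ^ k) z g := by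
    intro g k z
    unfold zoom Pool.Agent.V7H68.MS.zm Pool.Agent.V7H68.MS.nv
    push_cast
    rfl
  -- the change of coordinates
  let Φ : EuclideanSpace ℝ (Fin (m + 1)) →ₗ[ℝ] (Fin m → ℝ) × ℝ :=
    { toFun := fun x => (fun i => x i.succ, x 0)
      map_add' := fun x y => rfl
      map_smul' := fun c x => rfl }
  have hΦ : ∀ (a v : Fin m → ℝ) (t : ℝ), Φ (pt a v t) = (a + t • v, t) := by
    intro a v t
    rfl
  have hlip := (LinearMap.toContinuousLinearMap Φ).lipschitz
  have hdim : dimH (Φ '' K) < ENNReal.ofReal ((m - h) + 1) := by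
    have h1 : dimH (Φ '' K) ≤ dimH K := hlip.dimH_image_le K
    refine lt_of_le_of_lt h1 (lt_of_lt_of_le hK (le_of_eq ?_))
    congr 1
    ring
  have hcell : ∀ (k : ℕ) (z : Fin m → ℕ) (v : Fin m → ℝ),
      (∀ i, (z i : ℝ) ≤ (b:ℝ) ^ k * v i ∧ (b:ℝ) ^ k * v i < z i + 1) →
      v ∈ Pool.Agent.V7H68.MS.cell b ((k, z) : Pool.Agent.V7H68.MS.St (Fin m)) := by
    intro k z v hv i
    exact ⟨by simpa using (hv i).1, by linarith [(hv i).2]⟩
  have hloc : Pool.Agent.V7H68.HZ.LocOK b ((m:ℝ) - h) g := by
    filter_upwards [hg] with v hv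
    obtain ⟨k, z, hz, hvz, ⟨R, hR⟩, d, c, hc, hlow⟩ := hv
    refine ⟨(k, z), hz, hcell k z v hvz, ?_⟩
    have hcd : c = Pool.Agent.V7H68.HZ.Cd (Fintype.card (Fin m)) d := by
      rw [hc, Fintype.card_fin]
      unfold Pool.Agent.V7H68.HZ.Cd Pool.Agent.V7H68.HZ.Ad
      ring
    have h2 := Pool.Agent.V7H68.HF.imgOK3_of_zooms (ι := Fin m) (b := b) Pool.Agent.V7H68.HF.t_IMG' hb (R := R)
      (h := h) h0 (g := zoom b g k z) d
      (fun k' z' hz' y hy => by
        rw [← hzoom]
        exact hR k' z' hz' y hy)
      (fun ε hε => by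
        refine (hlow ε hε).mono ?_
        rintro j ⟨⟨p, col, hcol1, hcol2⟩, hj2⟩
        rw [← hcd]
        refine ⟨⟨p, fun x => col x.1 x.2, fun x x' hx hx' hxx y hy => ?_, ?_⟩,
          fun k' z' hz' => ?_⟩
        · rw [← hzoom, ← hzoom]
          exact hcol1 x.1 x'.1 x.2 x'.2 hx hx' hxx y hy
        · filter_upwards [hcol2] with v hv
          simp only [dens_eq] at hv
          exact hv
        · simp only [← hzoom]
          exact hj2 k' z' hz')
    rw [Fintype.card_fin, hzoom, Pool.Agent.V7H68.HZ.zm_one_zm] at h2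
    exact h2
  have hmeas : AEMeasurable g (volume.restrict (Pool.Agent.V7H68.SS.cube (Fin m))) := by
    refine Pool.Agent.V7H68.HZ.meas_of_cells hb ?_
    filter_upwards [hg] with v hv
    obtain ⟨k, z, hz, hvz, ⟨R, hR⟩, -⟩ := hv
    refine ⟨(k, z), hz, hcell k z v hvz, ?_⟩
    have h2 := Pool.Agent.V7H68.HZ.bz_of_zooms (ι := Fin m) (b := b) hb (g := zoom b g k z)
      (R := R)
      (fun k' z' hz' y hy => by
        rw [← hzoom]
        exact hR k' z' hz' y hy)
    rw [hzoom, Pool.Agent.V7H68.HZ.zm_one_zm] at h2
    exact h2.meas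
  have hmain := Pool.Agent.V7H68.HZ.loc_lines hb (d := (m:ℝ) - h) (by linarith) hmeas hF hloc hdim
  rw [hcube]
  filter_upwards [hmain] with v hv
  refine measure_mono_null ?_ hv
  intro t ht
  exact ⟨_, ht, hΦ _ _ _⟩

end Pool.Agent.Results.MP_b1773a_an.ZoomFrequenciesH68
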